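import Pool.Agent.R161.Bohr.Basic

/-! MP_0fda35_co: eigenvectors are characters for an extreme mean (S_erg). -/

set_option autoImplicit false

namespace Pool.Agent.R609.Bohr

open Finset Pool.Agent.R161.Bohr
open scoped ComplexConjugate

universe u v

section

variable {G : Type u} [AddCommGroup G] {H : Type u} [NormedAddCommGroup H]
  [InnerProductSpace ℂ H] {m : St G} {J : (G → ℂ) → H} {T : G → H →L[ℂ] H}
  {E : AddChar G Circle → H →L[ℂ] H}

theorem isRep_of_model (h : IsModel m J T E) : IsRep T := ⟨h.T_zero, h.T_add, h.T_inner⟩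

/-- a vector orthogonal to all `J w` vanishes -/
theorem eq_zero_of_dense (h : IsModel m J T E) (v : H)
    (hv : ∀ w, Bdd w → (inner ℂ v (J w) : ℂ) = 0) : v = 0 := by
  by_contra h0
  have hn : 0 < ‖v‖ := norm_pos_iff.2 h0
  obtain ⟨f, hf, hfe⟩ := h.J_dense v ‖v‖ hn
  have h1 : (inner ℂ v v : ℂ) = inner ℂ v (v - J f) := by
    rw [inner_sub_right, hv f hf, sub_zero]
  have h2 : ‖v‖ ^ 2 ≤ ‖v‖ * ‖v - J f‖ := by
    have h3 := norm_inner_le_norm (𝕜 := ℂ) v (v - J f)
    rw [← h1, inner_self_eq_norm_sq_to_K] at h3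
    simpa using h3
  nlinarith

theorem J_sum (h : IsModel m J T E) {ι : Type*} (s : Finset ι) (f : ι → G → ℂ)
    (hf : ∀ i ∈ s, Bdd (f i)) : J (fun x => ∑ i ∈ s, f i x) = ∑ i ∈ s, J (f i) := by
  classical
  induction s using Finset.induction_on with
  | empty =>
    have h1 := h.J_smul 0 (fun _ => (0 : ℂ)) (Bdd.const 0)
    simp only [mul_zero, zero_smul] at h1
    simpa using h1
  | insert a s ha ih =>
    have h1 := h.J_add (f a) (fun x => ∑ i ∈ s, f i x) (hf a (mem_insert_self a s))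
      (Bdd.sum s fun i hi => hf i (mem_insert_of_mem hi))
    rw [ih fun i hi => hf i (mem_insert_of_mem hi)] at h1
    simpa [sum_insert ha] using h1

/-- averages of `J f` -/
theorem avg_J (h : IsModel m J T E) (s : Finset G) (w : G → ℝ) {f : G → ℂ} (hf : Bdd f) :
    ∑ l ∈ s, (w l : ℂ) • T l (J f) = J (fun x => ∑ l ∈ s, (w l : ℂ) * f (x + l)) := by
  rw [J_sum h s (fun l x => (w l : ℂ) * f (x + l)) (fun l _ => (hf.comp _).cmul _)]
  refine Finset.sum_congr rfl fun l _ => ?_
  rw [h.T_J l f hf, h.J_smul _ _ (hf.comp _)]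

/-- the projection of `J f`, `0 ≤ f ≤ 1`, is a multiple of `J 1` -/
theorem proj_unit (hext : m.Ext) (h : IsModel m J T E) (f : G → ℝ)
    (hf : ∀ x, 0 ≤ f x ∧ f x ≤ 1) (y : H) (hy : ∀ l, T l y = y)
    (happ : ∀ ε : ℝ, 0 < ε → ∃ (s : Finset G) (w : G → ℝ), (∀ l ∈ s, 0 ≤ w l) ∧
      ∑ l ∈ s, w l = 1 ∧ ‖∑ l ∈ s, (w l : ℂ) • T l (J (fun x => (f x : ℂ))) - y‖ < ε) :
    ∃ c : ℂ, y = c • J (fun _ => 1) := by
  have hfb : BddR f := BddR.of_mem hf
  -- approximation of inner products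
  have key : ∀ w : G → ℝ, BddR w → ∀ ε : ℝ, 0 < ε → ∃ u : G → ℝ, (∀ x, 0 ≤ u x ∧ u x ≤ 1) ∧
      ‖(inner ℂ y (J (fun x => (w x : ℂ))) : ℂ) - (m.re (fun x => u x * w x) : ℂ)‖
        ≤ ε * ‖J (fun x => (w x : ℂ))‖ := by
    intro w hw ε hε
    obtain ⟨s, ws, hs0, hs1, hs⟩ := happ ε hε
    refine ⟨fun x => ∑ l ∈ s, ws l * f (x + l), ?_, ?_⟩
    · intro x
      refine ⟨Finset.sum_nonneg fun l hl => mul_nonneg (hs0 l hl) (hf _).1, ?_⟩
      calc ∑ l ∈ s, ws l * f (x + l) ≤ ∑ l ∈ s, ws l * 1 :=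
            Finset.sum_le_sum fun l hl => mul_le_mul_of_nonneg_left (hf _).2 (hs0 l hl)
        _ = 1 := by simp [hs1]
    · have hub : BddR (fun x => ∑ l ∈ s, ws l * f (x + l)) :=
        BddR.sum s fun l _ => (hfb.comp _).cmul _
      rw [avg_J h s ws hfb.ofReal] at hs
      have e1 : (fun x => ∑ l ∈ s, (ws l : ℂ) * ((f (x + l) : ℝ) : ℂ))
          = fun x => ((∑ l ∈ s, ws l * f (x + l) : ℝ) : ℂ) := by
        funext x; push_cast; rfl
      rw [e1] at hs
      have e2 : (inner ℂ (J (fun x => ((∑ l ∈ s, ws l * f (x + l) : ℝ) : ℂ)))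
          (J (fun x => (w x : ℂ))) : ℂ)
          = (m.re (fun x => (∑ l ∈ s, ws l * f (x + l)) * w x) : ℂ) := by
        rw [h.J_inner _ _ hub.ofReal hw.ofReal, ← m.ofReal (hub.mul hw)]
        congr 1
        funext x
        rw [Complex.conj_ofReal]
        push_cast
        rfl
      rw [← e2, ← inner_sub_left]
      refine (norm_inner_le_norm _ _).trans ?_
      apply mul_le_mul_of_nonneg_right _ (norm_nonneg _)
      rw [norm_sub_rev]
      exact hs.le
  have hre : ∀ w : G → ℝ, BddR w → (inner ℂ y (J (fun x => (w x : ℂ))) : ℂ).im = 0 := by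
    intro w hw
    by_contra h0
    have hpos : 0 < |(inner ℂ y (J (fun x => (w x : ℂ))) : ℂ).im| := abs_pos.2 h0
    set N := ‖J (fun x => (w x : ℂ))‖ with hN
    have hN0 : 0 ≤ N := norm_nonneg _
    obtain ⟨u, -, hu⟩ := key w hw (|(inner ℂ y (J (fun x => (w x : ℂ))) : ℂ).im| / (2 * (N + 1)))
      (by positivity)
    have h1 := Complex.abs_im_le_norm ((inner ℂ y (J (fun x => (w x : ℂ))) : ℂ)
      - (m.re (fun x => u x * w x) : ℂ))
    rw [Complex.sub_im, Complex.ofReal_im, sub_zero] at h1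
    have h2 := h1.trans hu
    have h3 : |(inner ℂ y (J (fun x => (w x : ℂ))) : ℂ).im| / (2 * (N + 1)) * N
        ≤ |(inner ℂ y (J (fun x => (w x : ℂ))) : ℂ).im| / 2 := by
      rw [div_mul_eq_mul_div, div_le_div_iff₀ (by positivity) (by norm_num)]
      nlinarith
    linarith
  have happrox : ∀ w : G → ℝ, BddR w → ∀ b : ℝ,
      (∀ u : G → ℝ, (∀ x, 0 ≤ u x ∧ u x ≤ 1) → m.re (fun x => u x * w x) ≤ b) →
      (inner ℂ y (J (fun x => (w x : ℂ))) : ℂ).re ≤ b := by
    intro w hw b hb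
    by_contra h0
    push Not at h0
    set N := ‖J (fun x => (w x : ℂ))‖ with hN
    have hN0 : 0 ≤ N := norm_nonneg _
    set a := (inner ℂ y (J (fun x => (w x : ℂ))) : ℂ).re with ha
    obtain ⟨u, hu01, hu⟩ := key w hw ((a - b) / (2 * (N + 1)))
      (div_pos (by linarith) (by positivity))
    have h1 := Complex.abs_re_le_norm ((inner ℂ y (J (fun x => (w x : ℂ))) : ℂ)
      - (m.re (fun x => u x * w x) : ℂ))
    rw [Complex.sub_re, Complex.ofReal_re, ← ha] at h1
    have h2 := (le_abs_self _).trans (h1.trans hu)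
    have h3 : (a - b) / (2 * (N + 1)) * N ≤ (a - b) / 2 := by
      rw [div_mul_eq_mul_div, div_le_div_iff₀ (by positivity) (by norm_num)]
      nlinarith
    have h4 := hb u hu01
    linarith
  have hneg : ∀ w : G → ℝ, BddR w → J (fun x => ((-w x : ℝ) : ℂ)) = -J (fun x => (w x : ℂ)) := by
    intro w hw
    have h1 := h.J_smul (-1) _ hw.ofReal
    rw [neg_one_smul] at h1
    rw [← h1]
    congr 1
    funext x
    push_cast
    ring
  let q : (G → ℝ) → ℝ := fun w => (inner ℂ y (J (fun x => (w x : ℂ))) : ℂ).re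
  have hq := hext q
    (by
      intro f g hf hg
      show (inner ℂ y (J (fun x => ((f x + g x : ℝ) : ℂ))) : ℂ).re = _
      have e1 : (fun x => ((f x + g x : ℝ) : ℂ)) = fun x => (f x : ℂ) + (g x : ℂ) := by
        funext x; push_cast; rfl
      rw [e1, h.J_add _ _ hf.ofReal hg.ofReal, inner_add_right, Complex.add_re])
    (by
      intro c f hf
      show (inner ℂ y (J (fun x => ((c * f x : ℝ) : ℂ))) : ℂ).re = _
      have e1 : (fun x => ((c * f x : ℝ) : ℂ)) = fun x => (c : ℂ) * (f x : ℂ) := by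
        funext x; push_cast; rfl
      rw [e1, h.J_smul _ _ hf.ofReal, inner_smul_right, Complex.re_ofReal_mul])
    (by
      intro w hw hw0
      constructor
      · have h1 := happrox (fun x => -w x) hw.neg 0 (by
          intro u hu
          have hub : BddR u := BddR.of_mem hu
          exact m.re_le (hub.mul hw.neg) fun x => by
            nlinarith [(hu x).1, hw0 x, mul_nonneg (hu x).1 (hw0 x)])
        rw [hneg w hw, inner_neg_right, Complex.neg_re] at h1
        show 0 ≤ (inner ℂ y (J (fun x => (w x : ℂ))) : ℂ).re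
        linarith
      · exact happrox w hw (m.re w) (by
          intro u hu
          have hub : BddR u := BddR.of_mem hu
          exact m.re_mono (hub.mul hw) hw fun x => by
            nlinarith [(hu x).2, hw0 x]))
    (by
      intro w s hw
      show (inner ℂ y (J (fun x => ((w (x + s) : ℝ) : ℂ))) : ℂ).re = _
      have h1 := h.T_J s _ hw.ofReal
      have h2 : (inner ℂ y (T s (J (fun x => (w x : ℂ)))) : ℂ)
          = inner ℂ y (J (fun x => (w x : ℂ))) := by
        conv_lhs => rw [← hy s]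
        exact h.T_inner s _ _
      rw [← h1, h2])
  set c : ℝ := q (fun _ => 1) with hc
  refine ⟨(c : ℂ), ?_⟩
  rw [← sub_eq_zero]
  apply eq_zero_of_dense h
  have hreal : ∀ w : G → ℝ, BddR w →
      (inner ℂ (y - (c : ℂ) • J (fun _ => 1)) (J (fun x => (w x : ℂ))) : ℂ) = 0 := by
    intro w hw
    rw [inner_sub_left, inner_smul_left, Complex.conj_ofReal,
      h.J_inner _ _ (Bdd.const 1) hw.ofReal]
    have e1 : m (fun x => conj (1 : ℂ) * (w x : ℂ)) = (m.re w : ℂ) := by
      rw [← m.ofReal hw]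
      congr 1
      funext x
      simp
    rw [e1]
    have e2 := hq w hw
    apply Complex.ext
    · rw [Complex.sub_re, ← Complex.ofReal_mul, Complex.ofReal_re, Complex.zero_re]
      have e3 : (inner ℂ y (J (fun x => (w x : ℂ))) : ℂ).re = c * m.re w := e2
      rw [e3, sub_self]
    · rw [Complex.sub_im, ← Complex.ofReal_mul, Complex.ofReal_im, hre w hw, sub_zero,
        Complex.zero_im]
  intro w hw
  have hr : BddR fun x => (w x).re := by
    obtain ⟨C, hC⟩ := hw
    exact ⟨C, fun x => (Complex.abs_re_le_norm _).trans (hC x)⟩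
  have hi : BddR fun x => (w x).im := by
    obtain ⟨C, hC⟩ := hw
    exact ⟨C, fun x => (Complex.abs_im_le_norm _).trans (hC x)⟩
  have e : w = fun x => (((w x).re : ℝ) : ℂ) + Complex.I * (((w x).im : ℝ) : ℂ) := by
    funext x
    rw [mul_comm]; exact (Complex.re_add_im _).symm
  rw [e, h.J_add _ _ hr.ofReal (hi.ofReal.cmul _), h.J_smul _ _ hi.ofReal, inner_add_right,
    inner_smul_right, hreal _ hr, hreal _ hi]
  simp

/-- an invariant vector orthogonal to the constants vanishes -/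
theorem inv_orth (hmet : S_met.{u}) [CompleteSpace H] (hext : m.Ext) (h : IsModel m J T E) (z : H)
    (hz : ∀ s, T s z = z) (hz1 : (inner ℂ z (J (fun _ => 1)) : ℂ) = 0) : z = 0 := by
  apply eq_zero_of_dense h
  have hunit : ∀ f : G → ℝ, (∀ x, 0 ≤ f x ∧ f x ≤ 1) →
      (inner ℂ z (J (fun x => (f x : ℂ))) : ℂ) = 0 := by
    intro f hf
    obtain ⟨y, hy1, hy2, hy3⟩ := hmet G H T (isRep_of_model h) ⊤ (J (fun x => (f x : ℂ)))
    obtain ⟨c, hc⟩ := proj_unit hext h f hf y (fun l => hy1 l (AddSubgroup.mem_top l)) (by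
      intro ε hε
      obtain ⟨s, w, hs, h1, h2⟩ := hy3 ε hε
      exact ⟨s, w, fun l hl => (hs l hl).2, h1, h2⟩)
    have h3 := hy2 z (fun l _ => hz l)
    rw [inner_sub_right, hc, inner_smul_right, hz1, mul_zero, sub_zero] at h3
    exact h3
  have hreal : ∀ f : G → ℝ, BddR f → (inner ℂ z (J (fun x => (f x : ℂ))) : ℂ) = 0 := by
    intro f hf
    obtain ⟨C, hC⟩ := hf
    set D : ℝ := |C| + 1 with hD
    have hD0 : 0 < D := by positivity
    have hCD : ∀ x, |f x| ≤ D := fun x => (hC x).trans (by rw [hD]; linarith [le_abs_self C])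
    have hg : ∀ x, 0 ≤ (f x + D) / (2 * D) ∧ (f x + D) / (2 * D) ≤ 1 := by
      intro x
      have := abs_le.1 (hCD x)
      constructor
      · apply div_nonneg (by linarith) (by positivity)
      · rw [div_le_one (by positivity)]; linarith
    have h1 := hunit _ hg
    have hgb : BddR (fun x => (f x + D) / (2 * D)) := BddR.of_mem hg
    have e : (fun x => (f x : ℂ)) = fun x => ((2 * D : ℝ) : ℂ) * (((f x + D) / (2 * D) : ℝ) : ℂ)
        + ((-D : ℝ) : ℂ) * 1 := by
      funext x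
      rw [mul_one, ← Complex.ofReal_mul, ← Complex.ofReal_add]
      congr 1
      field_simp
      ring
    rw [e, h.J_add _ _ (hgb.ofReal.cmul _) ((Bdd.const 1).cmul _), h.J_smul _ _ hgb.ofReal,
      h.J_smul _ _ (Bdd.const 1), inner_add_right, inner_smul_right, inner_smul_right, h1, hz1]
    simp
  intro w hw
  have hr : BddR fun x => (w x).re := by
    obtain ⟨C, hC⟩ := hw
    exact ⟨C, fun x => (Complex.abs_re_le_norm _).trans (hC x)⟩
  have hi : BddR fun x => (w x).im := by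
    obtain ⟨C, hC⟩ := hw
    exact ⟨C, fun x => (Complex.abs_im_le_norm _).trans (hC x)⟩
  have e : w = fun x => (((w x).re : ℝ) : ℂ) + Complex.I * (((w x).im : ℝ) : ℂ) := by
    funext x
    rw [mul_comm]; exact (Complex.re_add_im _).symm
  rw [e, h.J_add _ _ hr.ofReal (hi.ofReal.cmul _), h.J_smul _ _ hi.ofReal, inner_add_right,
    inner_smul_right, hreal _ hr, hreal _ hi]
  simp

theorem inv_const (hmet : S_met.{u}) [CompleteSpace H] (hext : m.Ext) (h : IsModel m J T E)
    (x : H) (hx : ∀ s, T s x = x) : ∃ c : ℂ, x = c • J (fun _ => 1) := by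
  have hT1 : ∀ s, T s (J (fun _ => 1)) = J (fun _ => 1) := fun s => h.T_J s _ (Bdd.const 1)
  have h11 : (inner ℂ (J (fun _ => 1)) (J (fun _ => 1)) : ℂ) = 1 := by
    rw [h.J_inner _ _ (Bdd.const 1) (Bdd.const 1)]
    simpa using m.map_one
  refine ⟨inner ℂ (J (fun _ => 1)) x, ?_⟩
  rw [← sub_eq_zero]
  apply inv_orth hmet hext h
  · intro s
    rw [_root_.map_sub, _root_.map_smul, hT1, hx]
  · rw [inner_sub_left, inner_smul_left, h11, mul_one, inner_conj_symm, sub_self]

end

theorem s_erg (hmet : S_met.{u}) : S_erg.{u} := by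
  intro G _ m hm hext H _ _ _ J T E h χ x hx
  have hz : ∀ s, T s (E χ⁻¹ x) = E χ⁻¹ x := by
    intro s
    rw [h.T_E, hx s, _root_.map_smul, smul_smul]
    have h1 : ((χ⁻¹ s : Circle) : ℂ) * ((χ s : Circle) : ℂ) = 1 := by
      rw [← Circle.coe_mul, AddChar.inv_apply', inv_mul_cancel, Circle.coe_one]
    rw [h1, one_smul]
  obtain ⟨c, hc⟩ := inv_const hmet hext h _ hz
  refine ⟨c, ?_⟩
  have h2 : x = E χ (E χ⁻¹ x) := by
    rw [← h.E_mul, mul_inv_cancel, h.E_one]
  rw [h2, hc, _root_.map_smul, h.E_J χ _ (Bdd.const 1)]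
  simp

end Pool.Agent.R609.Bohr
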