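import Pool.Agent.R161.Bohr.Basic

/-! MP_0fda35_co: invariant vectors for a finite index subgroup (S_fin). -/

set_option autoImplicit false

namespace Pool.Agent.R609.Bohr

open Finset Pool.Agent.R161.Bohr
open scoped ComplexConjugate

universe u v

section

variable {G : Type u} [AddCommGroup G] {H : Type u} [NormedAddCommGroup H]
  [InnerProductSpace ℂ H] {m : St G} {J : (G → ℂ) → H} {T : G → H →L[ℂ] H}
  {E : AddChar G Circle → H →L[ℂ] H}

theorem conj_char_sub (ψ : AddChar G Circle) (g k : G) :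
    conj (ψ k : ℂ) = (ψ g : ℂ) * conj (ψ (g + k) : ℂ) := by
  rw [char_add, _root_.map_mul, ← mul_assoc, char_mul_conj, one_mul]

/-- translation only depends on the coset -/
theorem T_coset (h : IsModel m J T E) (L : AddSubgroup G) (x : H) (hx : ∀ l ∈ L, T l x = x)
    {a b : G} (hab : a - b ∈ L) : T a x = T b x := by
  have e : a = b + (a - b) := by abel
  rw [e, h.T_add, hx _ hab]

theorem psi_coset (ψ : AddChar G Circle) (L : AddSubgroup G) (hψ : ∀ l ∈ L, ψ l = 1)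
    {a b : G} (hab : a - b ∈ L) : ψ a = ψ b := by
  have e : a = b + (a - b) := by abel
  rw [e, AddChar.map_add_eq_mul, hψ _ hab, mul_one]

end

theorem s_fin (herg : S_erg.{u}) (hch : S_ch.{u}) : S_fin.{u} := by
  classical
  intro G _ m hm hext H _ _ _ J T E h L hL x hx Ξ hΞ
  obtain ⟨Ξ0, h0, -, hsep⟩ := hch G L hL
  have hfin : Finite (G ⧸ L) := by
    have := AddSubgroup.finiteIndex_iff.2 hL
    infer_instance
  have : Fintype (G ⧸ L) := Fintype.ofFinite _
  let X : AddChar G Circle → H := fun ψ => ∑ q : G ⧸ L, conj (ψ q.out : ℂ) • T q.out x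
  -- difference of representatives
  have hrep : ∀ (g : G) (q : G ⧸ L), (g + q.out) - ((g : G ⧸ L) + q).out ∈ L := by
    intro g q
    rw [← QuotientAddGroup.eq_zero_iff]
    have e1 : (((g : G ⧸ L) + q).out : G ⧸ L) = (g : G ⧸ L) + q := QuotientAddGroup.out_eq' _
    have e2 : ((q.out : G) : G ⧸ L) = q := QuotientAddGroup.out_eq' _
    rw [QuotientAddGroup.mk_sub, QuotientAddGroup.mk_add, e1, e2, sub_self]
  have hX : ∀ ψ ∈ Ξ0, ∀ g, T g (X ψ) = (ψ g : ℂ) • X ψ := by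
    intro ψ hψ g
    have hψL := (h0 ψ).1 hψ
    show T g (∑ q : G ⧸ L, conj (ψ q.out : ℂ) • T q.out x) = _
    rw [_root_.map_sum]
    have h1 : ∀ q : G ⧸ L, T g (conj (ψ q.out : ℂ) • T q.out x)
        = (ψ g : ℂ) • (conj (ψ ((g : G ⧸ L) + q).out : ℂ) • T ((g : G ⧸ L) + q).out x) := by
      intro q
      rw [_root_.map_smul, ← h.T_add, T_coset h L x hx (hrep g q), conj_char_sub ψ g,
        psi_coset ψ L hψL (hrep g q), smul_smul]
    rw [Finset.sum_congr rfl fun q _ => h1 q, ← Finset.smul_sum]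
    congr 1
    exact Equiv.sum_comp (Equiv.addLeft (g : G ⧸ L))
      (fun q : G ⧸ L => conj (ψ q.out : ℂ) • T q.out x)
  have hXspan : ∀ ψ ∈ Ξ0, X ψ ∈ Submodule.span ℂ
      ((fun ξ : AddChar G Circle => J (fun y => (ξ y : ℂ))) '' (Ξ : Set (AddChar G Circle))) := by
    intro ψ hψ
    obtain ⟨c, hc⟩ := herg G m hm hext H J T E h ψ (X ψ) (hX ψ hψ)
    rw [hc]
    apply Submodule.smul_mem
    apply Submodule.subset_span
    exact ⟨ψ, hΞ ψ ((h0 ψ).1 hψ), rfl⟩
  -- orthogonality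
  have horth : ∀ g, g ∉ L → ∑ ψ ∈ Ξ0, conj (ψ g : ℂ) = 0 := by
    intro g hg
    obtain ⟨ξ, hξ, hξg⟩ := hsep g hg
    have hmul : ∑ ψ ∈ Ξ0, (ψ g : ℂ) = (ξ g : ℂ) * ∑ ψ ∈ Ξ0, (ψ g : ℂ) := by
      rw [Finset.mul_sum]
      refine Finset.sum_bij' (fun ψ _ => ξ⁻¹ * ψ) (fun ψ _ => ξ * ψ) ?_ ?_ ?_ ?_ ?_
      · intro ψ hψ
        rw [h0]
        intro l hl
        rw [AddChar.mul_apply, AddChar.inv_apply', (h0 ξ).1 hξ l hl, (h0 ψ).1 hψ l hl]
        simp
      · intro ψ hψ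
        rw [h0]
        intro l hl
        rw [AddChar.mul_apply, (h0 ξ).1 hξ l hl, (h0 ψ).1 hψ l hl]
        simp
      · intro ψ _
        simp
      · intro ψ _
        simp
      · intro ψ _
        rw [char_mul, ← mul_assoc, ← conj_char, char_mul_conj, one_mul]
    have h3 : (ξ g : ℂ) ≠ 1 := fun h => hξg (by ext; simpa using h)
    have h4 : ((ξ g : ℂ) - 1) * ∑ ψ ∈ Ξ0, (ψ g : ℂ) = 0 := by
      rw [sub_mul, ← hmul, one_mul, sub_self]
    have h5 := (mul_eq_zero.1 h4).resolve_left (sub_ne_zero.2 h3)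
    rw [← _root_.map_sum, h5, _root_.map_zero]
  have hsum : ∑ ψ ∈ Ξ0, X ψ = (Ξ0.card : ℂ) • x := by
    show ∑ ψ ∈ Ξ0, ∑ q : G ⧸ L, conj (ψ q.out : ℂ) • T q.out x = _
    rw [Finset.sum_comm, Finset.sum_eq_single (0 : G ⧸ L)]
    · have hq0 : (0 : G ⧸ L).out ∈ L := by
        rw [← QuotientAddGroup.eq_zero_iff]
        exact QuotientAddGroup.out_eq' _
      rw [hx _ hq0, ← Finset.sum_smul]
      congr 1
      rw [Finset.sum_congr rfl fun ψ hψ => by rw [(h0 ψ).1 hψ _ hq0]]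
      simp
    · intro q _ hq
      rw [← Finset.sum_smul, horth, zero_smul]
      intro hmem
      rw [← QuotientAddGroup.eq_zero_iff] at hmem
      apply hq
      rw [← hmem]
      exact (QuotientAddGroup.out_eq' q).symm
    · intro hn
      exact absurd (Finset.mem_univ _) hn
  have hcard : (Ξ0.card : ℂ) ≠ 0 := by
    have h1 : (1 : AddChar G Circle) ∈ Ξ0 := (h0 1).2 (fun l _ => by simp)
    exact_mod_cast (Finset.card_pos.2 ⟨_, h1⟩).ne'
  have hx2 : x = (Ξ0.card : ℂ)⁻¹ • ∑ ψ ∈ Ξ0, X ψ := by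
    rw [hsum, smul_smul, inv_mul_cancel₀ hcard, one_smul]
  rw [hx2]
  apply Submodule.smul_mem
  exact Submodule.sum_mem _ fun ψ hψ => hXspan ψ hψ

end Pool.Agent.R609.Bohr
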